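import Pool.Agent.Run7.h105.Ns
import Pool.Agent.Run7.h105.Dyn

/-!
# One pressure-only determining functional for the planar Navier-Stokes equations
(trajectories that are real-analytic in space)
-/

set_option autoImplicit false

namespace Pool.Agent.Results.MP_b9b054_an.AnalyticForcing

open Set Filter Topology MeasureTheory Pool.Agent.H754R3.PR Run7.h105

/-- `(U1, U2)` is a stationary solution with pressure `q` -/
structure IsSteady (Ω : Set P2) (ν : ℝ) (g1 g2 : P2 → ℝ) (U1 U2 q : P2 → ℝ) : Prop where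
  smooth1 : ContDiff ℝ 3 U1
  smooth2 : ContDiff ℝ 3 U2
  press : DifferentiableOn ℝ q Ω
  mom1 : ∀ x ∈ Ω, U1 x * d1 U1 x + U2 x * d2 U1 x + d1 q x
    = ν * (d1 (d1 U1) x + d2 (d2 U1) x) + g1 x
  mom2 : ∀ x ∈ Ω, U1 x * d1 U2 x + U2 x * d2 U2 x + d2 q x
    = ν * (d1 (d1 U2) x + d2 (d2 U2) x) + g2 x
  div : ∀ x ∈ Ω, d1 U1 x + d2 U2 x = 0
  noslip : ∀ x ∈ frontier Ω, U1 x = 0 ∧ U2 x = 0

/-- a translation invariant family of trajectories with pressures of mean zero, whose pressure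
curves form a compact subset of `C(ℝ, L²(Ω))` -/
structure IsFamily (Ω : Set P2) (ν : ℝ) (g1 g2 : P2 → ℝ) (A : Set Fld) : Prop where
  traj : ∀ a ∈ A, IsTraj Ω ν g1 g2 a.1 a.2.1 a.2.2
  mean : ∀ a ∈ A, ∀ t, ∫ x in Ω, a.2.2 (t, x) = 0
  shift : ∀ a ∈ A, ∀ s, (sh s a.1, sh s a.2.1, sh s a.2.2) ∈ A
  compact : IsCompact (pressCurves Ω A)

/-- One bounded continuous functional of the pressure separates the trajectories of `A` and is
asymptotically determining for everything that is attracted by `A`. -/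
theorem result (Ω : Set P2) (hΩ : IsOpen Ω) (hconn : IsConnected Ω) (hb : Bornology.IsBounded Ω)
    (hbd : BdryClass 2 Ω) (ν : ℝ) (hν : 0 < ν) (g1 g2 : P2 → ℝ) (A : Set Fld)
    (hA : IsFamily Ω ν g1 g2 A)
    (hS : ∃ S : Set ((P2 → ℝ) × (P2 → ℝ)), S.Countable ∧ ∀ U1 U2 q : P2 → ℝ,
      IsSteady Ω ν g1 g2 U1 U2 q → ∃ V ∈ S, ∀ x ∈ Ω, U1 x = V.1 x ∧ U2 x = V.2 x) :
    ∃ F : BoundedContinuousFunction (L2 Ω) ℝ,
      (∀ a ∈ A, ∀ b ∈ A, ∀ P Q : C(ℝ, L2 Ω), Rep Ω P a.2.2 → Rep Ω Q b.2.2 →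
        (∀ t, F (P t) = F (Q t)) →
        ∀ t, ∀ x ∈ Ω, a.1 (t, x) = b.1 (t, x) ∧ a.2.1 (t, x) = b.2.1 (t, x)) ∧
      (∀ U1 U2 Q V1 V2 R : ℝ → L2 Ω, Attracted Ω A U1 U2 Q → Attracted Ω A V1 V2 R →
        Tendsto (fun t => F (Q t) - F (R t)) atTop (𝓝 0) →
        Tendsto (fun t => ‖U1 t - V1 t‖) atTop (𝓝 0) ∧
        Tendsto (fun t => ‖U2 t - V2 t‖) atTop (𝓝 0)) := by
  have hone : ∀ u1 u2 p v1 v2 q : P3 → ℝ, IsTraj Ω ν g1 g2 u1 u2 p → IsTraj Ω ν g1 g2 v1 v2 q →
      (∃ k : ℝ → ℝ, ∀ t, ∀ x ∈ Ω, p (t, x) = q (t, x) + k t) →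
      ∀ t, ∀ x ∈ Ω, u1 (t, x) = v1 (t, x) ∧ u2 (t, x) = v2 (t, x) :=
    fun u1 u2 p v1 v2 q hu hv hpq => traj_uniq hΩ hconn.isPreconnected hb hbd hν hu hv hpq
  obtain ⟨S, hSc, hS⟩ := hS
  have hpress : ∀ a ∈ A, ∀ t, ContinuousOn (sl a.2.2 t) Ω := fun a ha t =>
    ((hA.traj a ha).press t).continuousOn
  have huniq : ∀ a ∈ A, ∀ b ∈ A, (∀ t, ∀ x ∈ Ω, a.2.2 (t, x) = b.2.2 (t, x)) →
      ∀ t, ∀ x ∈ Ω, a.1 (t, x) = b.1 (t, x) ∧ a.2.1 (t, x) = b.2.1 (t, x) :=
    fun a ha b hb' h => hone _ _ _ _ _ _ (hA.traj a ha) (hA.traj b hb')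
      ⟨fun _ => 0, fun t x hx => by rw [h t x hx, add_zero]⟩
  have hfin : IsFiniteMeasure (volume.restrict Ω) :=
    ⟨by rw [Measure.restrict_apply_univ]; exact hb.measure_lt_top⟩
  -- the constant pressure curves are countably many
  have hcount : {y : L2 Ω | ContinuousMap.const ℝ y ∈ pressCurves Ω A}.Countable := by
    have hex : ∀ y : L2 Ω, ContinuousMap.const ℝ y ∈ pressCurves Ω A → ∃ V ∈ S, ∃ a ∈ A,
        Rep Ω (ContinuousMap.const ℝ y) a.2.2 ∧
        (∀ t, ∀ x ∈ Ω, a.1 (t, x) = V.1 x ∧ a.2.1 (t, x) = V.2 x) := by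
      rintro y ⟨a, ha, hy⟩
      have hst := const_steady hΩ hpress huniq hA.shift ha hy
      have ht := hA.traj a ha
      have hD : ∀ {F : P3 → ℝ}, ContDiff ℝ 3 F → (∀ t, ∀ x ∈ Ω, F (t, x) = F (0, x)) →
          ∀ x ∈ Ω, Dt F (0, x) = 0 := by
        intro F hF h x hx
        have h1 := hasDerivAt_time (hF.differentiable (by norm_num)) 0 x
        have h2 : (fun s => F (s, x)) = fun _ => F (0, x) := funext fun s => h s x hx
        rw [h2] at h1
        exact h1.unique (hasDerivAt_const (0 : ℝ) (F (0, x)))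
      obtain ⟨V, hV, hVe⟩ := hS (sl a.1 0) (sl a.2.1 0) (sl a.2.2 0)
        { smooth1 := sl_contDiff (n := 3) ht.smooth1 0
          smooth2 := sl_contDiff (n := 3) ht.smooth2 0
          press := ht.press 0
          mom1 := fun x hx => by
            have h1 := ht.mom1 0 x hx
            rw [hD ht.smooth1 (fun t x hx => (hst t x hx).1) x hx, zero_add] at h1
            exact h1
          mom2 := fun x hx => by
            have h1 := ht.mom2 0 x hx
            rw [hD ht.smooth2 (fun t x hx => (hst t x hx).2) x hx, zero_add] at h1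
            exact h1
          div := ht.div 0
          noslip := ht.noslip 0 }
      refine ⟨V, hV, a, ha, hy, fun t x hx => ?_⟩
      exact ⟨(hst t x hx).1.trans (hVe x hx).1, (hst t x hx).2.trans (hVe x hx).2⟩
    have : ∀ y : {y : L2 Ω | ContinuousMap.const ℝ y ∈ pressCurves Ω A}, ∃ V ∈ S, ∃ a ∈ A,
        Rep Ω (ContinuousMap.const ℝ (y : L2 Ω)) a.2.2 ∧
        (∀ t, ∀ x ∈ Ω, a.1 (t, x) = V.1 x ∧ a.2.1 (t, x) = V.2 x) := fun y => hex y y.2
    choose V hVS a haA hrep hVe using this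
    have hinj : Function.Injective (fun y => (⟨V y, hVS y⟩ : S)) := by
      intro y y' hyy
      have hVV : V y = V y' := congrArg Subtype.val hyy
      have t1 := hA.traj _ (haA y)
      have t2 := hA.traj _ (haA y')
      have e1 : ∀ x ∈ Ω, (a y).1 (0, x) = (a y').1 (0, x) ∧
          (a y).2.1 (0, x) = (a y').2.1 (0, x) := by
        intro x hx
        rw [(hVe y 0 x hx).1, (hVe y 0 x hx).2, (hVe y' 0 x hx).1, (hVe y' 0 x hx).2, hVV]
        exact ⟨rfl, rfl⟩
      have hD : ∀ {F : P3 → ℝ} {W : P2 → ℝ}, ContDiff ℝ 3 F → (∀ t, ∀ x ∈ Ω, F (t, x) = W x) →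
          ∀ x ∈ Ω, Dt F (0, x) = 0 := by
        intro F W hF h x hx
        have h1 := hasDerivAt_time (hF.differentiable (by norm_num)) 0 x
        have h2 : (fun s => F (s, x)) = fun _ => W x := funext fun s => h s x hx
        rw [h2] at h1
        exact h1.unique (hasDerivAt_const (0 : ℝ) (W x))
      -- first and second derivatives agree in the open set
      have hloc : ∀ {f g : P2 → ℝ}, (∀ x ∈ Ω, f x = g x) → ∀ x ∈ Ω,
          d1 f x = d1 g x ∧ d2 f x = d2 g x := by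
        intro f g h x hx
        have h1 : f =ᶠ[𝓝 x] g := by
          filter_upwards [hΩ.mem_nhds hx] with z hz using h z hz
        exact ⟨by rw [d1, d1, h1.fderiv_eq], by rw [d2, d2, h1.fderiv_eq]⟩
      have f1 : ∀ x ∈ Ω, sl (a y).1 0 x = sl (a y').1 0 x := fun x hx => (e1 x hx).1
      have f2 : ∀ x ∈ Ω, sl (a y).2.1 0 x = sl (a y').2.1 0 x := fun x hx => (e1 x hx).2
      have hp : ∀ x ∈ Ω, d1 (sl (a y).2.2 0) x = d1 (sl (a y').2.2 0) x ∧
          d2 (sl (a y).2.2 0) x = d2 (sl (a y').2.2 0) x := by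
        intro x hx
        have m1 := t1.mom1 0 x hx
        have m1' := t2.mom1 0 x hx
        have m2 := t1.mom2 0 x hx
        have m2' := t2.mom2 0 x hx
        rw [hD t1.smooth1 (fun t x hx => (hVe y t x hx).1) x hx, (e1 x hx).1, (e1 x hx).2,
          (hloc f1 x hx).1, (hloc f1 x hx).2,
          (hloc (fun z hz => (hloc f1 z hz).1) x hx).1,
          (hloc (fun z hz => (hloc f1 z hz).2) x hx).2] at m1
        rw [hD t2.smooth1 (fun t x hx => (hVe y' t x hx).1) x hx] at m1'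
        rw [hD t1.smooth2 (fun t x hx => (hVe y t x hx).2) x hx, (e1 x hx).1, (e1 x hx).2,
          (hloc f2 x hx).1, (hloc f2 x hx).2,
          (hloc (fun z hz => (hloc f2 z hz).1) x hx).1,
          (hloc (fun z hz => (hloc f2 z hz).2) x hx).2] at m2
        rw [hD t2.smooth2 (fun t x hx => (hVe y' t x hx).2) x hx] at m2'
        exact ⟨by linarith, by linarith⟩
      obtain ⟨x₀, hx₀⟩ := hconn.nonempty
      have hdiff : DifferentiableOn ℝ (fun x => sl (a y).2.2 0 x - sl (a y').2.2 0 x) Ω :=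
        (t1.press 0).sub (t2.press 0)
      have hconst : ∀ x ∈ Ω, sl (a y).2.2 0 x - sl (a y').2.2 0 x =
          sl (a y).2.2 0 x₀ - sl (a y').2.2 0 x₀ := by
        intro x hx
        refine hΩ.is_const_of_fderiv_eq_zero hconn.isPreconnected hdiff (fun z hz => ?_) hx hx₀
        have q1 := ((t1.press 0).differentiableAt (hΩ.mem_nhds hz)).hasFDerivAt
        have q2 := ((t2.press 0).differentiableAt (hΩ.mem_nhds hz)).hasFDerivAt
        have q3 := (q1.fun_sub q2).fderiv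
        rw [q3]
        refine ContinuousLinearMap.ext fun e => ?_
        have := hp z hz
        have e2 : (fderiv ℝ (sl (a y).2.2 0) z - fderiv ℝ (sl (a y').2.2 0) z) e =
            fderiv ℝ (sl (a y).2.2 0) z e - fderiv ℝ (sl (a y').2.2 0) z e := rfl
        rw [e2, fderiv_eq_of_d, fderiv_eq_of_d, this.1, this.2, sub_self]
        rfl
      obtain ⟨κ, hκ⟩ : ∃ κ : ℝ, κ = sl (a y).2.2 0 x₀ - sl (a y').2.2 0 x₀ := ⟨_, rfl⟩
      rw [← hκ] at hconst
      have i1 : Integrable (fun x => (a y).2.2 (0, x)) (volume.restrict Ω) :=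
        ((Lp.memLp (y : L2 Ω)).integrable (by norm_num)).congr (hrep y 0)
      have i2 : Integrable (fun x => (a y').2.2 (0, x)) (volume.restrict Ω) :=
        ((Lp.memLp (y' : L2 Ω)).integrable (by norm_num)).congr (hrep y' 0)
      have i3 := integral_sub i1 i2
      have i4 : ∫ x in Ω, ((a y).2.2 (0, x) - (a y').2.2 (0, x)) = ∫ _x in Ω, κ :=
        setIntegral_congr_fun hΩ.measurableSet (fun x hx => hconst x hx)
      rw [hA.mean _ (haA y) 0, hA.mean _ (haA y') 0, sub_self, i4,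
        setIntegral_const, smul_eq_mul] at i3
      have hvol : volume.real Ω ≠ 0 := by
        rw [Measure.real, ENNReal.toReal_ne_zero]
        exact ⟨(hΩ.measure_pos volume hconn.nonempty).ne', hb.measure_lt_top.ne⟩
      have hκ0 : κ = 0 := (mul_eq_zero.1 i3).resolve_left hvol
      have hyy' : (y : L2 Ω) = y' := by
        refine Lp.ext ?_
        filter_upwards [hrep y 0, hrep y' 0, ae_restrict_mem hΩ.measurableSet] with x h1 h2 hx
        simp only [ContinuousMap.const_apply] at h1 h2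
        rw [h1, h2]
        have := hconst x hx
        rw [hκ0] at this
        simp only [sl] at this
        linarith
      exact Subtype.ext hyy'
    have : Countable S := hSc.to_subtype
    exact hinj.countable
  have : Fact ((2 : ENNReal) ≠ ⊤) := ⟨by norm_num⟩
  obtain ⟨F, hF⟩ := exists_observable hA.compact hcount
  refine ⟨F, ?_, ?_⟩
  · intro a ha b hb' P Q hP hQ h
    have hPQ := hF P ⟨a, ha, hP⟩ Q ⟨b, hb', hQ⟩ h
    subst hPQ
    exact eq_of_curve hΩ hpress huniq ha hb' hP hQ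
  · intro U1 U2 Q V1 V2 R hU hV hlim
    exact asymp hΩ hpress huniq hF hU hV hlim

end Pool.Agent.Results.MP_b9b054_an.AnalyticForcing
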