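import Pool.Agent.Run7.h105.Fun

/-!
# One pressure-only determining functional for the planar Navier-Stokes equations
(forces whose curl does not vanish at some strictly convex boundary point)
-/

set_option autoImplicit false

namespace Pool.Agent.Results.MP_b9b054_an.GenericForcing

open Set Filter Topology MeasureTheory Pool.Agent.H754R3.PR Run7.h105

/-- If the curl of the `C¹` force does not vanish at some strictly convex point of the frontier,
one bounded continuous functional of the pressure separates the trajectories of `A` and is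
asymptotically determining for everything that is attracted by `A`. -/
theorem result (Ω : Set P2) (hΩ : IsOpen Ω) (hconn : IsConnected Ω) (hb : Bornology.IsBounded Ω)
    (hbd : BdryClass 2 Ω) (ν : ℝ) (hν : 0 < ν) (g1 g2 : P2 → ℝ) (hg1 : ContDiff ℝ 1 g1)
    (hg2 : ContDiff ℝ 1 g2) (hg : ∃ z, Curved Ω z ∧ d1 g2 z - d2 g1 z ≠ 0) (A : Set Fld)
    (hA : IsFamilyS Ω ν g1 g2 A)
    (hS : ∃ S : Set ((P2 → ℝ) × (P2 → ℝ)), S.Countable ∧ ∀ U1 U2 q : P2 → ℝ,
      IsSteadyS Ω ν g1 g2 U1 U2 q → ∃ V ∈ S, ∀ x ∈ Ω, U1 x = V.1 x ∧ U2 x = V.2 x) :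
    ∃ F : BoundedContinuousFunction (L2 Ω) ℝ,
      (∀ a ∈ A, ∀ b ∈ A, ∀ P Q : C(ℝ, L2 Ω), Rep Ω P a.2.2 → Rep Ω Q b.2.2 →
        (∀ t, F (P t) = F (Q t)) →
        ∀ t, ∀ x ∈ Ω, a.1 (t, x) = b.1 (t, x) ∧ a.2.1 (t, x) = b.2.1 (t, x)) ∧
      (∀ U1 U2 Q V1 V2 R : ℝ → L2 Ω, Attracted Ω A U1 U2 Q → Attracted Ω A V1 V2 R →
        Tendsto (fun t => F (Q t) - F (R t)) atTop (𝓝 0) →
        Tendsto (fun t => ‖U1 t - V1 t‖) atTop (𝓝 0) ∧
        Tendsto (fun t => ‖U2 t - V2 t‖) atTop (𝓝 0)) :=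
  functional_of_uniq hΩ hconn hb hA hS fun a ha b hb' h t x hx =>
    generic_uniq hΩ hconn.isPreconnected hb hbd hν hg1 hg2 hg (a := t - 1) (b := t + 1)
      (hA.traj a ha) (hA.traj b hb') ⟨fun _ => 0, fun s _ y hy => by rw [h s y hy, add_zero]⟩ t
      ⟨by linarith, by linarith⟩ x hx

end Pool.Agent.Results.MP_b9b054_an.GenericForcing
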